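import Mathlib
import Pool.Agent.Q40.CK.Init

namespace Pool.Agent.Results.MP_53b42b_nt.Unbounded

open Pool.Agent.Q35

/-- For every positive integer `m ≡ 6 mod 8` the numbers `S 4 m n` (which are positive) are
divisible by arbitrarily high powers of `4`; so `φ_4(S 4 m n)`, the largest `s` with
`4^s ∣ S 4 m n`, is unbounded. -/
theorem result : ∀ m : ℕ, m % 8 = 6 →
    (∀ n : ℕ, 1 ≤ S 4 m n) ∧ (∀ B : ℕ, ∃ n : ℕ, 4 ^ B ∣ S 4 m n) ∧
    ∀ B : ℕ, ∃ n : ℕ, (B : ℕ∞) ≤ emultiplicity 4 (S 4 m n) := by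
  intro m hm
  have h := Pool.Agent.Q40.CK.unbounded m hm
  refine ⟨fun n => Pool.Agent.Q40.CK.S_pos 4 m n (by omega), h, ?_⟩
  intro B
  obtain ⟨n, hn⟩ := h B
  exact ⟨n, pow_dvd_iff_le_emultiplicity.mp hn⟩

end Pool.Agent.Results.MP_53b42b_nt.Unbounded
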